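import Pool.Agent.PmX.Hier

/-!
# Deciding polymatroid extendability is hard for exponential time (MP_8bc768_lc)

Every language decided by a (multi-stack) Turing machine in time `2 ^ poly` reduces in polynomial
time to EXT and to CON; the reduction always outputs a valid instance (all members of the scenario,
once each) with sets of at most three elements and natural values.  Hence EXT and CON are not in P,
and if one of them is in NP then EXP is contained in NP.
-/

namespace Pool.Agent.Results.MP_8bc768_lc.ExpHard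

open Pool.PmX Pool.NPC

private theorem mem_EXT {I : Inst} (hI : I.Valid) : I.code ∈ EXT ↔ I.NonContextual := by
  constructor
  · rintro ⟨I', h, _, h2⟩
    rw [← code_inj h]
    exact h2
  · intro h
    exact ⟨I, rfl, hI, h⟩

private theorem mem_CON {I : Inst} (hI : I.Valid) : I.code ∈ CON ↔ ¬ I.NonContextual := by
  constructor
  · rintro ⟨I', h, _, h2⟩
    rw [← code_inj h]
    exact h2
  · intro h
    exact ⟨I, rfl, hI, h⟩

theorem result :
    (∀ A : Set (List Bool), InEXP A →
      ∃ I : List Bool → Inst, PolyTimeComputable (fun x => (I x).code) ∧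
        ∀ x, (I x).Valid ∧ (∀ p ∈ (I x).ent, p.1.card ≤ 3 ∧ ∃ k : ℕ, p.2 = (k : ℚ)) ∧
          (x ∈ A ↔ (I x).code ∈ EXT) ∧ (x ∉ A ↔ (I x).code ∈ CON)) ∧
    (¬ InP EXT ∧ ¬ InP CON) ∧
    ((InNP EXT ∨ InNP CON) → ∀ A : Set (List Bool), InEXP A → InNP A) := by
  refine ⟨fun A hA => ?_, ⟨ext_not_p, con_not_p⟩, ?_⟩
  · obtain ⟨I, hI, h⟩ := reduction A hA
    refine ⟨I, hI.polyTime, fun x => ⟨(h x).1, (h x).2.1, ?_, ?_⟩⟩
    · rw [mem_EXT (h x).1]
      exact (h x).2.2
    · rw [mem_CON (h x).1]
      exact not_congr (h x).2.2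
  · rintro (hE | hC) A hA
    · obtain ⟨I, hI, h⟩ := reduction A hA
      refine InNP.of_reduction hE _ hI fun x => ?_
      rw [mem_EXT (h x).1]
      exact (h x).2.2
    · obtain ⟨I, hI, h⟩ := reduction Aᶜ hA.compl
      refine InNP.of_reduction hC _ hI fun x => ?_
      rw [mem_CON (h x).1, ← not_congr (h x).2.2, Set.mem_compl_iff, not_not]

end Pool.Agent.Results.MP_8bc768_lc.ExpHard
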